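import Mathlib

/-! The Brauer-Nesbitt theorem in characteristic zero for semisimple modules of finite dimension. -/

set_option autoImplicit false

namespace Pool.Agent.H52.BN

open Module

section central

variable {A M : Type*} [Ring A] [AddCommGroup M] [Module A M] [IsSemisimpleModule A M]

/-- the projection to an isotypic component commutes with all endomorphisms -/
theorem exists_proj (c : isotypicComponents A M) : ∃ e : End A M, (∀ f : End A M, e * f = f * e) ∧
    (∀ x ∈ c.1, e x = x) ∧ ∀ x, e x ∈ c.1 := by
  classical
  let E := IsSemisimpleModule.endRingEquiv A M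
  have hE : ∀ (f : End A M) (i : isotypicComponents A M) (x : i.1), ((E f i x : i.1) : M) = f x := fun f i x => rfl
  refine ⟨E.symm (Pi.single c 1), fun f => ?_, fun x hx => ?_, fun x => ?_⟩
  · apply E.injective
    rw [map_mul, map_mul, E.apply_symm_apply]
    funext i
    rw [Pi.mul_apply, Pi.mul_apply]
    by_cases h : i = c
    · subst h
      rw [Pi.single_eq_same, one_mul, mul_one]
    · rw [Pi.single_eq_of_ne h, zero_mul, mul_zero]
  · have := hE (E.symm (Pi.single c 1)) c ⟨x, hx⟩
    rw [E.apply_symm_apply, Pi.single_eq_same] at this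
    exact this.symm
  · have hx : x ∈ ⨆ i : isotypicComponents A M, i.1 := by
      rw [← sSup_eq_iSup', sSup_isotypicComponents]
      trivial
    refine Submodule.iSup_induction (fun i : isotypicComponents A M => i.1)
      (motive := fun x => (E.symm (Pi.single c 1)) x ∈ c.1) hx (fun i x hxi => ?_) (by simp) fun x y hx hy => ?_
    · have := hE (E.symm (Pi.single c 1)) i ⟨x, hxi⟩
      rw [E.apply_symm_apply] at this
      rw [show (E.symm (Pi.single c 1)) x = (E.symm (Pi.single c 1)) ((⟨x, hxi⟩ : i.1) : M) from rfl, ← this]
      by_cases h : i = c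
      · subst h
        rw [Pi.single_eq_same]
        exact hxi
      · rw [Pi.single_eq_of_ne h]
        simp
    · rw [map_add]
      exact add_mem hx hy

end central

section bn

variable {k A : Type*} [Field k] [CharZero k] [Ring A] [Algebra k A]

/-- the trace of `a` on the module `V` -/
noncomputable def tr (k : Type*) {A : Type*} [Field k] [Ring A] [Algebra k A] (V : Type*) [AddCommGroup V] [Module k V]
    [Module A V] [IsScalarTower k A V] (a : A) : k :=
  LinearMap.trace k V (Algebra.lsmul k k V a)

omit [CharZero k] in
theorem tr_equiv {V V' : Type*} [AddCommGroup V] [Module k V] [Module A V] [IsScalarTower k A V]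
    [AddCommGroup V'] [Module k V'] [Module A V'] [IsScalarTower k A V'] (e : V ≃ₗ[A] V') (a : A) :
    tr k V a = tr k V' a := by
  have h := LinearMap.trace_conj' (Algebra.lsmul k k V a) (e.restrictScalars k)
  rw [tr, tr, ← h]
  congr 1
  ext x
  simp [LinearEquiv.conj_apply]

omit [CharZero k] in
theorem tr_prod {V V' : Type*} [AddCommGroup V] [Module k V] [Module A V] [IsScalarTower k A V] [FiniteDimensional k V]
    [AddCommGroup V'] [Module k V'] [Module A V'] [IsScalarTower k A V'] [FiniteDimensional k V'] (a : A) :
    tr k (V × V') a = tr k V a + tr k V' a := by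
  rw [tr, tr, tr, ← LinearMap.trace_prodMap']
  congr 1

theorem ss_prod {V W : Type*} [AddCommGroup V] [Module A V] [IsSemisimpleModule A V] [AddCommGroup W] [Module A W]
    [IsSemisimpleModule A W] : IsSemisimpleModule A (V × W) := by
  have h1 : IsSemisimpleModule A (LinearMap.range (LinearMap.inl A V W)) :=
    IsSemisimpleModule.congr (LinearEquiv.ofInjective (LinearMap.inl A V W) LinearMap.inl_injective).symm
  have h2 : IsSemisimpleModule A (LinearMap.range (LinearMap.inr A V W)) :=
    IsSemisimpleModule.congr (LinearEquiv.ofInjective (LinearMap.inr A V W) LinearMap.inr_injective).symm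
  refine isSemisimpleModule_of_isSemisimpleModule_submodule'
    (p := fun b : Bool => cond b (LinearMap.range (LinearMap.inl A V W)) (LinearMap.range (LinearMap.inr A V W)))
    (fun b => by cases b <;> assumption) ?_
  rw [iSup_bool_eq]
  exact LinearMap.sup_range_inl_inr

omit [CharZero k] in
theorem fin_sub {V : Type*} [AddCommGroup V] [Module k V] [Module A V] [IsScalarTower k A V] [FiniteDimensional k V]
    (S : Submodule A V) : FiniteDimensional k S :=
  FiniteDimensional.of_injective (S.subtype.restrictScalars k) S.subtype_injective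

theorem step {V W : Type*} [AddCommGroup V] [Module k V] [Module A V] [IsScalarTower k A V] [FiniteDimensional k V]
    [IsSemisimpleModule A V] [AddCommGroup W] [Module k W] [Module A W] [IsScalarTower k A W] [FiniteDimensional k W]
    [IsSemisimpleModule A W] (h : ∀ a : A, tr k V a = tr k W a) (S : Submodule A V) [IsSimpleModule A S] :
    ∃ f : S →ₗ[A] W, Function.Injective f := by
  by_contra hno
  push Not at hno
  have := ss_prod (A := A) (V := V) (W := W)
  let j : S ≃ₗ[A] S.map (LinearMap.inl A V W) := Submodule.equivMapOfInjective _ LinearMap.inl_injective S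
  have : IsSimpleModule A (S.map (LinearMap.inl A V W)) := IsSimpleModule.congr j.symm
  let c : isotypicComponents A (V × W) :=
    ⟨isotypicComponent A (V × W) (S.map (LinearMap.inl A V W)), S.map (LinearMap.inl A V W), inferInstance, rfl⟩
  obtain ⟨e, he1, he2, he3⟩ := exists_proj c
  let f : End (End A (V × W)) (V × W) :=
    { toFun := e
      map_add' := e.map_add
      map_smul' := fun g x => by
        show (e * g) x = (g * e) x
        rw [he1] }
  obtain ⟨s, hs⟩ := (Module.Finite.fg_top : (⊤ : Submodule k (V × W)).FG)
  obtain ⟨a, ha⟩ := jacobson_density f s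
  have hea : ∀ m, e m = a • m := by
    intro m
    have hm : m ∈ Submodule.span k (s : Set (V × W)) := by rw [hs]; trivial
    induction hm using Submodule.span_induction with
    | mem m hm => exact ha m hm
    | zero => rw [map_zero, smul_zero]
    | add x y _ _ hx hy => rw [map_add, smul_add, hx, hy]
    | smul t x _ hx => rw [LinearMap.map_smul_of_tower, hx, smul_algebra_smul_comm]
  have hW : ∀ w : W, a • w = 0 := by
    intro w
    by_contra hw
    have hN : Submodule.map e (LinearMap.range (LinearMap.inr A V W)) ≠ ⊥ := by
      intro h0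
      have h1 : e (0, w) ∈ Submodule.map e (LinearMap.range (LinearMap.inr A V W)) :=
        ⟨(0, w), ⟨w, rfl⟩, rfl⟩
      rw [h0, Submodule.mem_bot, hea] at h1
      exact hw (congrArg Prod.snd h1)
    obtain ⟨S₂, hS₂, hsim⟩ := (IsSemisimpleModule.eq_bot_or_exists_simple_le _).resolve_left hN
    have h1 : S₂ ≤ c.1 := hS₂.trans (by
      rintro _ ⟨x, -, rfl⟩
      exact he3 x)
    have h2 : IsIsotypicOfType A c.1 (S.map (LinearMap.inl A V W)) := IsIsotypicOfType.isotypicComponent A _ _
    obtain ⟨i⟩ := isIsotypicOfType_submodule_iff.mp h2 S₂ h1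
    refine hno (((LinearMap.snd A V W).comp S₂.subtype).comp (j.trans i.symm).toLinearMap) ?_
    have h3 : Function.Injective ((LinearMap.snd A V W).comp S₂.subtype) := by
      rw [← LinearMap.ker_eq_bot, LinearMap.ker_eq_bot']
      rintro ⟨⟨v, w'⟩, hx⟩ hx0
      obtain ⟨_, ⟨y, rfl⟩, hy⟩ := hS₂ hx
      rw [hea] at hy
      have h4 : v = 0 := by
        have := congrArg Prod.fst hy
        simpa using this.symm
      have h5 : w' = 0 := hx0
      subst h4 h5
      rfl
    exact h3.comp (j.trans i.symm).injective
  have hVtr : tr k V a = 0 := by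
    rw [h, tr, show Algebra.lsmul k k W a = 0 from LinearMap.ext hW, map_zero]
  have hid : IsIdempotentElem (Algebra.lsmul k k V a) := by
    refine LinearMap.ext fun v => ?_
    show a • a • v = a • v
    have h1 := he2 _ (he3 (v, 0))
    rw [hea, hea] at h1
    exact congrArg Prod.fst h1
  have h2 := (LinearMap.IsIdempotentElem.isProj_range _ hid).trace
  rw [show LinearMap.trace k V (Algebra.lsmul k k V a) = 0 from hVtr] at h2
  have h3 : finrank k (LinearMap.range (Algebra.lsmul k k V a)) = 0 := by exact_mod_cast h2.symm
  have h4 : Algebra.lsmul k k V a = 0 := LinearMap.range_eq_bot.1 (Submodule.finrank_eq_zero.1 h3)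
  have h5 := IsSimpleModule.nontrivial A S
  obtain ⟨x, hx⟩ := exists_ne (0 : S)
  apply hx
  have h6 : ((x : V), (0 : W)) ∈ c.1 := by
    have h7 := Submodule.le_isotypicComponent (R := A) (M := V × W) (S.map (LinearMap.inl A V W))
    exact h7 ⟨x, x.2, rfl⟩
  have h8 := he2 _ h6
  rw [hea] at h8
  have h9 : a • (x : V) = x := congrArg Prod.fst h8
  have h10 : a • (x : V) = 0 := congrArg (fun g : V →ₗ[k] V => g x) h4
  rw [h9] at h10
  exact Subtype.ext h10

/-- **The Brauer-Nesbitt theorem** for semisimple modules in characteristic zero. -/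
theorem brauer_nesbitt (n : ℕ) : ∀ (V : Type*) (W : Type*) [AddCommGroup V] [Module k V] [Module A V]
    [IsScalarTower k A V] [FiniteDimensional k V] [IsSemisimpleModule A V] [AddCommGroup W] [Module k W] [Module A W]
    [IsScalarTower k A W] [FiniteDimensional k W] [IsSemisimpleModule A W], finrank k V = n →
    (∀ a : A, tr k V a = tr k W a) → Nonempty (V ≃ₗ[A] W) := by
  induction n using Nat.strong_induction_on with
  | _ n ih =>
  intro V W _ _ _ _ _ _ _ _ _ _ _ _ hn h
  have hdim : finrank k V = finrank k W := by
    have h1 := h 1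
    rw [tr, tr, map_one (Algebra.lsmul k k V), map_one (Algebra.lsmul k k W), LinearMap.trace_one,
      LinearMap.trace_one] at h1
    exact_mod_cast h1
  rcases IsSemisimpleModule.eq_bot_or_exists_simple_le (⊤ : Submodule A V) with h0 | ⟨S, -, hS⟩
  · have hV : Subsingleton V := by
      rw [← Submodule.subsingleton_iff A]
      exact subsingleton_of_bot_eq_top h0.symm
    have hW : Subsingleton W := by
      rw [← finrank_zero_iff (R := k), ← hdim, finrank_zero_iff]
      exact hV
    exact ⟨0, 0, fun x => Subsingleton.elim _ _, fun x => Subsingleton.elim _ _⟩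
  · obtain ⟨f, hf⟩ := step h S
    obtain ⟨S', hS'⟩ := exists_isCompl S
    obtain ⟨T', hT'⟩ := exists_isCompl (LinearMap.range f)
    have := fin_sub (k := k) S
    have := fin_sub (k := k) S'
    have := fin_sub (k := k) (LinearMap.range f)
    have := fin_sub (k := k) T'
    let e1 := Submodule.prodEquivOfIsCompl S S' hS'
    let e2 := Submodule.prodEquivOfIsCompl _ T' hT'
    let e3 : S ≃ₗ[A] LinearMap.range f := LinearEquiv.ofInjective f hf
    have hlt : finrank k S' < n := by
      have h1 := (e1.restrictScalars k).finrank_eq
      rw [finrank_prod, hn] at h1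
      have h2 := IsSimpleModule.nontrivial A S
      have h3 : 0 < finrank k S := finrank_pos
      omega
    obtain ⟨e4⟩ := ih _ hlt S' T' rfl fun a => by
      have h1 := h a
      rw [← tr_equiv e1, ← tr_equiv e2, tr_prod, tr_prod, ← tr_equiv e3] at h1
      exact add_left_cancel h1
    exact ⟨e1.symm.trans ((e3.prodCongr e4).trans e2)⟩

end bn

end Pool.Agent.H52.BN
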