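import Mathlib

/-! Rigidity of homomorphisms to the automorphism group of a semisimple Lie algebra. -/

set_option autoImplicit false
set_option linter.unusedSectionVars false

namespace Pool.Agent.H52.Rigid

open Module

variable {Ω 𝔤 : Type*} [Field Ω] [LieRing 𝔤] [LieAlgebra Ω 𝔤]

variable (Ω 𝔤) in
/-- the automorphisms of the Lie algebra `𝔤` -/
def LieAut : Subgroup (𝔤 ≃ₗ[Ω] 𝔤) where
  carrier := {φ | ∀ x y, φ ⁅x, y⁆ = ⁅φ x, φ y⁆}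
  mul_mem' := by
    intro φ ψ hφ hψ x y
    show φ (ψ ⁅x, y⁆) = ⁅φ (ψ x), φ (ψ y)⁆
    rw [hψ, hφ]
  one_mem' := fun x y => rfl
  inv_mem' := by
    intro φ hφ x y
    apply φ.injective
    show φ (φ.symm ⁅x, y⁆) = φ ⁅φ.symm x, φ.symm y⁆
    rw [hφ, LinearEquiv.apply_symm_apply, LinearEquiv.apply_symm_apply, LinearEquiv.apply_symm_apply]

/-- every bilinear map which is equivariant for the `s x` is equivariant for the inner derivations -/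
def Zar {X : Type*} (s : X → (𝔤 ≃ₗ[Ω] 𝔤)) : Prop :=
  ∀ β : 𝔤 →ₗ[Ω] 𝔤 →ₗ[Ω] 𝔤, (∀ x u v, s x (β u v) = β (s x u) (s x v)) →
    ∀ y u v : 𝔤, ⁅y, β u v⁆ = β ⁅y, u⁆ v + β u ⁅y, v⁆

theorem eq_of_ad (Ω : Type*) {𝔤 : Type*} [Field Ω] [LieRing 𝔤] [LieAlgebra Ω 𝔤] [FiniteDimensional Ω 𝔤]
    [LieAlgebra.IsKilling Ω 𝔤] {x y : 𝔤} (h : ∀ v : 𝔤, ⁅x, v⁆ = ⁅y, v⁆) : x = y := by
  have h1 : LieDerivation.ad Ω 𝔤 (x - y) = 0 := by
    ext v
    rw [LieDerivation.ad_apply_apply, sub_lie, h, sub_self]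
    rfl
  exact sub_eq_zero.1 ((LieDerivation.IsKilling.ad_apply_eq_zero_iff Ω 𝔤 (x - y)).1 h1)

variable [FiniteDimensional Ω 𝔤] [LieAlgebra.IsKilling Ω 𝔤]

/-- two homomorphisms to the automorphism group which are conjugate under the linear group are conjugate -/
theorem exists_aut {X : Type*} {s s' : X → (𝔤 ≃ₗ[Ω] 𝔤)} (hs : ∀ x, s x ∈ LieAut Ω 𝔤)
    (hs' : ∀ x, s' x ∈ LieAut Ω 𝔤) (hz : Zar s) (A : 𝔤 ≃ₗ[Ω] 𝔤) (hA : ∀ x v, A (s x v) = s' x (A v)) :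
    ∃ φ ∈ LieAut Ω 𝔤, ∀ x, φ * s x * φ⁻¹ = s' x := by
  have hAs : ∀ x v, A.symm (s' x v) = s x (A.symm v) := by
    intro x v
    apply A.injective
    rw [hA, LinearEquiv.apply_symm_apply, LinearEquiv.apply_symm_apply]
  let β : 𝔤 →ₗ[Ω] 𝔤 →ₗ[Ω] 𝔤 := LinearMap.mk₂ Ω (fun u v => A.symm ⁅A u, A v⁆)
    (fun u u' v => by rw [map_add, add_lie, map_add]) (fun c u v => by rw [map_smul, smul_lie, map_smul])
    (fun u v v' => by rw [map_add, lie_add, map_add]) (fun c u v => by rw [map_smul, lie_smul, map_smul])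
  have hβ : ∀ u v, β u v = A.symm ⁅A u, A v⁆ := fun u v => rfl
  have hz' := hz β fun x u v => by
    rw [hβ, hβ, hA, hA, ← hs' x, hAs]
  have hder : ∀ y u v : 𝔤, A ⁅y, A.symm ⁅u, v⁆⁆ = ⁅A ⁅y, A.symm u⁆, v⁆ + ⁅u, A ⁅y, A.symm v⁆⁆ := by
    intro y u v
    have h1 := hz' y (A.symm u) (A.symm v)
    rw [hβ, hβ, hβ, LinearEquiv.apply_symm_apply, LinearEquiv.apply_symm_apply, ← map_add] at h1
    rw [h1, LinearEquiv.apply_symm_apply]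
  have hex : ∀ y : 𝔤, ∃ z : 𝔤, ∀ v, A ⁅y, v⁆ = ⁅z, A v⁆ := by
    intro y
    let D : LieDerivation Ω 𝔤 𝔤 :=
      { toLinearMap := A.toLinearMap ∘ₗ (LieAlgebra.ad Ω 𝔤 y) ∘ₗ A.symm.toLinearMap
        leibniz' := by
          intro u v
          show A ⁅y, A.symm ⁅u, v⁆⁆ = ⁅u, A ⁅y, A.symm v⁆⁆ - ⁅v, A ⁅y, A.symm u⁆⁆
          rw [hder, ← lie_skew v, sub_neg_eq_add, add_comm] }
    obtain ⟨z, hz⟩ := LieDerivation.IsKilling.exists_eq_ad D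
    refine ⟨z, fun v => ?_⟩
    have h1 : LieDerivation.ad Ω 𝔤 z (A v) = D (A v) := by rw [hz]
    rw [LieDerivation.ad_apply_apply] at h1
    rw [h1]
    show A ⁅y, v⁆ = A ⁅y, A.symm (A v)⁆
    rw [LinearEquiv.symm_apply_apply]
  choose θ hθ using hex
  have huniq : ∀ {z z' : 𝔤}, (∀ v, ⁅z, A v⁆ = ⁅z', A v⁆) → z = z' := by
    intro z z' h
    refine eq_of_ad Ω fun v => ?_
    have := h (A.symm v)
    rwa [LinearEquiv.apply_symm_apply] at this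
  let Θ : 𝔤 →ₗ[Ω] 𝔤 :=
    { toFun := θ
      map_add' := fun y z => huniq fun v => by rw [← hθ, add_lie, add_lie, map_add, hθ, hθ]
      map_smul' := fun c y => huniq fun v => by
        rw [← hθ, smul_lie, RingHom.id_apply, smul_lie, map_smul, hθ] }
  have hΘ : ∀ y, Θ y = θ y := fun y => rfl
  have hinj : Function.Injective Θ := by
    rw [← LinearMap.ker_eq_bot, LinearMap.ker_eq_bot']
    intro y hy
    refine eq_of_ad Ω fun v => ?_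
    apply A.injective
    rw [hθ, ← hΘ, hy, zero_lie, zero_lie, map_zero]
  have hlie : ∀ y z, θ ⁅y, z⁆ = ⁅θ y, θ z⁆ := by
    intro y z
    refine huniq fun v => ?_
    rw [← hθ, lie_lie, map_sub, hθ, hθ, hθ, hθ, lie_lie]
  let φ : 𝔤 ≃ₗ[Ω] 𝔤 := LinearEquiv.ofInjectiveEndo Θ hinj
  have hφ : ∀ y, φ y = θ y := fun y => rfl
  refine ⟨φ, fun y z => by rw [hφ, hφ, hφ, hlie], fun x => ?_⟩
  rw [mul_inv_eq_iff_eq_mul]
  ext y
  show φ (s x y) = s' x (φ y)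
  rw [hφ, hφ]
  refine huniq fun v => ?_
  rw [← hθ]
  obtain ⟨w, rfl⟩ := (s x).surjective v
  rw [← hs x, hA, hθ, hs' x, hA]

/-- an automorphism which commutes with the `s x` is trivial -/
theorem eq_one {X : Type*} {s : X → (𝔤 ≃ₗ[Ω] 𝔤)} (hs : ∀ x, s x ∈ LieAut Ω 𝔤) (hz : Zar s) {φ : 𝔤 ≃ₗ[Ω] 𝔤}
    (hφ : φ ∈ LieAut Ω 𝔤) (h : ∀ x, φ * s x = s x * φ) : φ = 1 := by
  have h' : ∀ x v, φ (s x v) = s x (φ v) := fun x v => congrArg (fun g : 𝔤 ≃ₗ[Ω] 𝔤 => g v) (h x)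
  let β : 𝔤 →ₗ[Ω] 𝔤 →ₗ[Ω] 𝔤 := LinearMap.mk₂ Ω (fun u v => ⁅φ u, v⁆)
    (fun u u' v => by rw [map_add, add_lie]) (fun c u v => by rw [map_smul, smul_lie])
    (fun u v v' => by rw [lie_add]) (fun c u v => by rw [lie_smul])
  have hβ : ∀ u v, β u v = ⁅φ u, v⁆ := fun u v => rfl
  have hz' := hz β fun x u v => by rw [hβ, hβ, h', hs x]
  ext y
  show φ y = y
  have h1 : ∀ u : 𝔤, ⁅y - φ y, φ u⁆ = 0 := by
    intro u
    refine eq_of_ad Ω fun v => ?_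
    have h2 := hz' y u v
    rw [hβ, hβ, hβ, hφ, leibniz_lie] at h2
    have h3 := add_right_cancel h2
    rw [sub_lie, sub_lie, h3, sub_self, zero_lie]
  have h2 : y - φ y = 0 := by
    refine eq_of_ad Ω fun v => ?_
    obtain ⟨u, rfl⟩ := φ.surjective v
    rw [h1, zero_lie]
  exact (sub_eq_zero.1 h2).symm

end Pool.Agent.H52.Rigid
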