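import Pool.Agent.H52.BN

/-! Semisimple representations of groups on finite-dimensional vector spaces: Clifford's theorem, Maschke's theorem
relative to a subgroup of finite index, Brauer-Nesbitt. -/

set_option autoImplicit false
set_option linter.unusedSectionVars false

namespace Pool.Agent.H52.SSRep

open Module

section

variable {Γ : Type*} [Group Γ] {k : Type*} [Field k] {V : Type*} [AddCommGroup V] [Module k V]

/-- the subspace `W` is stable -/
def Stab (ρ : Γ →* (V ≃ₗ[k] V)) (W : Submodule k V) : Prop := ∀ g, ∀ w ∈ W, ρ g w ∈ W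

/-- stable subspaces have stable complements -/
def SS (ρ : Γ →* (V ≃ₗ[k] V)) : Prop := ∀ W, Stab ρ W → ∃ W', Stab ρ W' ∧ IsCompl W W'

theorem stab_bot (ρ : Γ →* (V ≃ₗ[k] V)) : Stab ρ ⊥ := by
  intro g w hw
  rw [Submodule.mem_bot] at hw ⊢
  rw [hw, map_zero]

theorem stab_inf {ρ : Γ →* (V ≃ₗ[k] V)} {W W' : Submodule k V} (h : Stab ρ W) (h' : Stab ρ W') :
    Stab ρ (W ⊓ W') := fun g w hw => ⟨h g w hw.1, h' g w hw.2⟩

theorem stab_sup {ρ : Γ →* (V ≃ₗ[k] V)} {W W' : Submodule k V} (h : Stab ρ W) (h' : Stab ρ W') :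
    Stab ρ (W ⊔ W') := by
  intro g w hw
  obtain ⟨a, ha, b, hb, rfl⟩ := Submodule.mem_sup.1 hw
  rw [map_add]
  exact Submodule.add_mem_sup (h g a ha) (h' g b hb)

/-- the translate of a subspace -/
def tl (ρ : Γ →* (V ≃ₗ[k] V)) (g : Γ) (W : Submodule k V) : Submodule k V := W.map (ρ g).toLinearMap

theorem mem_tl {ρ : Γ →* (V ≃ₗ[k] V)} {g : Γ} {W : Submodule k V} {w : V} : w ∈ tl ρ g W ↔ ρ g⁻¹ w ∈ W := by
  constructor
  · rintro ⟨x, hx, rfl⟩
    show ρ g⁻¹ (ρ g x) ∈ W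
    rw [← LinearEquiv.mul_apply, ← map_mul, inv_mul_cancel, map_one]
    exact hx
  · intro h
    refine ⟨_, h, ?_⟩
    show ρ g (ρ g⁻¹ w) = w
    rw [← LinearEquiv.mul_apply, ← map_mul, mul_inv_cancel, map_one]
    rfl

theorem tl_tl (ρ : Γ →* (V ≃ₗ[k] V)) (g h : Γ) (W : Submodule k V) : tl ρ g (tl ρ h W) = tl ρ (g * h) W := by
  ext w
  rw [mem_tl, mem_tl, mem_tl, ← LinearEquiv.mul_apply, ← map_mul, _root_.mul_inv_rev]

theorem tl_one (ρ : Γ →* (V ≃ₗ[k] V)) (W : Submodule k V) : tl ρ 1 W = W := by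
  ext w
  rw [mem_tl, inv_one, map_one]
  rfl

theorem tl_mono (ρ : Γ →* (V ≃ₗ[k] V)) (g : Γ) {W W' : Submodule k V} (h : W ≤ W') :
    tl ρ g W ≤ tl ρ g W' := Submodule.map_mono h

theorem tl_le (ρ : Γ →* (V ≃ₗ[k] V)) (g : Γ) {W W' : Submodule k V} (h : tl ρ g W ≤ W') :
    W ≤ tl ρ g⁻¹ W' := by
  have := tl_mono ρ g⁻¹ h
  rwa [tl_tl, inv_mul_cancel, tl_one] at this

theorem tl_le' (ρ : Γ →* (V ≃ₗ[k] V)) (g : Γ) {W W' : Submodule k V} (h : W ≤ tl ρ g W') :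
    tl ρ g⁻¹ W ≤ W' := by
  have := tl_mono ρ g⁻¹ h
  rwa [tl_tl, inv_mul_cancel, tl_one] at this

variable (N : Subgroup Γ) [hN : N.Normal]

theorem tl_stab (ρ : Γ →* (V ≃ₗ[k] V)) (g : Γ) {W : Submodule k V} (h : Stab (ρ.comp N.subtype) W) :
    Stab (ρ.comp N.subtype) (tl ρ g W) := by
  intro u w hw
  rw [mem_tl] at hw ⊢
  have h1 : g⁻¹ * u.1 * g ∈ N := by
    have := hN.conj_mem u.1 u.2 g⁻¹
    rwa [inv_inv] at this
  have h2 := h ⟨_, h1⟩ _ hw
  have e : ρ g⁻¹ ((ρ.comp N.subtype) u w) = (ρ.comp N.subtype) ⟨g⁻¹ * u.1 * g, h1⟩ (ρ g⁻¹ w) := by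
    show ρ g⁻¹ (ρ u.1 w) = ρ (g⁻¹ * u.1 * g) (ρ g⁻¹ w)
    rw [← LinearEquiv.mul_apply, ← LinearEquiv.mul_apply, ← map_mul, ← map_mul]
    congr 2
    group
  rw [e]
  exact h2

/-- minimal nonzero stable subspaces -/
def Mini (ρ : Γ →* (V ≃ₗ[k] V)) (W : Submodule k V) : Prop :=
  Stab ρ W ∧ W ≠ ⊥ ∧ ∀ W' ≤ W, Stab ρ W' → W' ≠ ⊥ → W' = W

variable [FiniteDimensional k V]

theorem exists_mini {ρ : Γ →* (V ≃ₗ[k] V)} {C : Submodule k V} (hC : Stab ρ C) (h0 : C ≠ ⊥) :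
    ∃ W ≤ C, Mini ρ W := by
  obtain ⟨W, ⟨h1, h2, h3⟩, h4⟩ := (wellFounded_lt (α := Submodule k V)).has_min
    {W | Stab ρ W ∧ W ≠ ⊥ ∧ W ≤ C} ⟨C, hC, h0, le_rfl⟩
  refine ⟨W, h3, h1, h2, fun W' hW' hs hne => ?_⟩
  by_contra hcon
  exact h4 W' ⟨hs, hne, hW'.trans h3⟩ (lt_of_le_of_ne hW' hcon)

theorem ss_of_sSup {ρ : Γ →* (V ≃ₗ[k] V)} (h : sSup {W | Mini ρ W} = ⊤) : SS ρ := by
  intro W hW
  obtain ⟨W', ⟨h1, h2⟩, h3⟩ := (wellFounded_gt (α := Submodule k V)).has_min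
    {W' | Stab ρ W' ∧ Disjoint W W'} ⟨⊥, stab_bot ρ, disjoint_bot_right⟩
  refine ⟨W', h1, h2, ?_⟩
  rw [codisjoint_iff]
  by_contra hne
  obtain ⟨X, hX, hXW⟩ : ∃ X, Mini ρ X ∧ ¬ X ≤ W ⊔ W' := by
    by_contra hcon
    push Not at hcon
    apply hne
    rw [eq_top_iff, ← h]
    exact sSup_le fun X hX => hcon X hX
  have hd : Disjoint (W ⊔ W') X := by
    rw [disjoint_iff]
    by_contra h4
    have h5 := hX.2.2 ((W ⊔ W') ⊓ X) inf_le_right (stab_inf (stab_sup hW h1) hX.1) h4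
    exact hXW (h5 ▸ inf_le_left)
  have h6 : Disjoint W (W' ⊔ X) := Disjoint.disjoint_sup_right_of_disjoint_sup_left h2 hd
  refine h3 (W' ⊔ X) ⟨stab_sup h1 hX.1, h6⟩ ?_
  show W' < W' ⊔ X
  refine lt_of_le_of_ne le_sup_left fun h7 => hXW ?_
  have : X ≤ W' := by rw [h7]; exact le_sup_right
  exact this.trans le_sup_right

/-- **Clifford's theorem** -/
theorem clifford {ρ : Γ →* (V ≃ₗ[k] V)} (hρ : SS ρ) : SS (ρ.comp N.subtype) := by
  apply ss_of_sSup
  set S : Submodule k V := sSup {W | Mini (ρ.comp N.subtype) W} with hS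
  have hmini : ∀ g W, Mini (ρ.comp N.subtype) W → Mini (ρ.comp N.subtype) (tl ρ g W) := by
    intro g W hW
    refine ⟨tl_stab N ρ g hW.1, fun h => hW.2.1 ?_, fun W' hW' hs hne => ?_⟩
    · have h1 : W ≤ tl ρ g⁻¹ ⊥ := tl_le ρ g h.le
      rw [tl, Submodule.map_bot] at h1
      exact le_bot_iff.1 h1
    · have h1 := hW.2.2 (tl ρ g⁻¹ W') (tl_le' ρ g hW') (tl_stab N ρ g⁻¹ hs) (fun h => hne ?_)
      · rw [← h1, tl_tl, mul_inv_cancel, tl_one]
      · have h2 : tl ρ g (tl ρ g⁻¹ W') = W' := by rw [tl_tl, mul_inv_cancel, tl_one]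
        rw [← h2, h, tl, Submodule.map_bot]
  have hst : Stab ρ S := by
    intro g
    have h1 : S ≤ tl ρ g⁻¹ S := by
      refine sSup_le fun W hW => tl_le ρ g ?_
      exact le_sSup (hmini g W hW)
    intro w hw
    have h2 := h1 hw
    rw [mem_tl, inv_inv] at h2
    exact h2
  obtain ⟨C, hC, hSC⟩ := hρ S hst
  have hC0 : C = ⊥ := by
    by_contra h0
    obtain ⟨W, hW, hm⟩ := exists_mini (ρ := ρ.comp N.subtype) (C := C) (fun u w hw => hC u w hw) h0
    have h1 : W ≤ S := le_sSup hm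
    exact hm.2.1 (le_bot_iff.1 (hSC.disjoint h1 hW))
  have := hSC.sup_eq_top
  rwa [hC0, sup_bot_eq] at this

end

section maschke

variable {Γ : Type*} [Group Γ] {k : Type*} [Field k] [CharZero k] {V : Type*} [AddCommGroup V] [Module k V]

/-- **Maschke's theorem** relative to a subgroup of finite index -/
theorem maschke (H : Subgroup Γ) [H.FiniteIndex] {ρ : Γ →* (V ≃ₗ[k] V)} (h : SS (ρ.comp H.subtype)) : SS ρ := by
  classical
  intro W hW
  obtain ⟨W', hW', hc⟩ := h W fun g w hw => hW g w hw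
  obtain ⟨p, hp1, hp2, hp3⟩ : ∃ p : V →ₗ[k] V, (∀ v, p v ∈ W) ∧ (∀ w ∈ W, p w = w) ∧ ∀ w ∈ W', p w = 0 := by
    refine ⟨W.subtype.comp (W.projectionOnto W' hc), fun v => Subtype.property _, fun w hw => ?_, fun w hw => ?_⟩
    · have := Submodule.projectionOnto_apply_left hc ⟨w, hw⟩
      exact congrArg Subtype.val this
    · have := Submodule.projectionOnto_apply_right hc ⟨w, hw⟩
      exact congrArg Subtype.val this
  have hph : ∀ g ∈ H, ∀ v, p (ρ g v) = ρ g (p v) := by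
    intro g hg v
    have hv : v ∈ W ⊔ W' := by rw [hc.sup_eq_top]; trivial
    obtain ⟨a, ha, b, hb, rfl⟩ := Submodule.mem_sup.1 hv
    have h1 : ρ g b ∈ W' := hW' ⟨g, hg⟩ b hb
    rw [map_add, map_add, map_add, hp2 _ (hW g a ha), hp2 a ha, hp3 b hb, hp3 _ h1, add_zero, add_zero]
  let f : Γ → (V →ₗ[k] V) := fun g => (ρ g).toLinearMap ∘ₗ p ∘ₗ (ρ g⁻¹).toLinearMap
  have hf : ∀ g v, f g v = ρ g (p (ρ g⁻¹ v)) := fun g v => rfl
  have hfH : ∀ g, ∀ x ∈ H, f (g * x) = f g := by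
    intro g x hx
    ext v
    rw [hf, hf, _root_.mul_inv_rev, map_mul, map_mul, LinearEquiv.mul_apply, LinearEquiv.mul_apply,
      hph _ (H.inv_mem hx), ← LinearEquiv.mul_apply (ρ x), ← map_mul, mul_inv_cancel, map_one]
    rfl
  have hfe : ∀ g g' : Γ, (QuotientGroup.mk g : Γ ⧸ H) = QuotientGroup.mk g' → f g = f g' := by
    intro g g' hgg
    have h1 := QuotientGroup.eq.1 hgg
    have h2 : g' = g * (g⁻¹ * g') := by group
    rw [h2, hfH g _ h1]
  have := Subgroup.fintypeQuotientOfFiniteIndex (H := H)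
  let P : V →ₗ[k] V := ((Fintype.card (Γ ⧸ H) : k)⁻¹) • ∑ q : Γ ⧸ H, f q.out
  have hcard : (Fintype.card (Γ ⧸ H) : k) ≠ 0 := by
    exact_mod_cast Fintype.card_ne_zero
  have hPa : ∀ v, P v = ((Fintype.card (Γ ⧸ H) : k)⁻¹) • ∑ q : Γ ⧸ H, f q.out v := by
    intro v
    show (((Fintype.card (Γ ⧸ H) : k)⁻¹) • ∑ q : Γ ⧸ H, f q.out) v = _
    rw [LinearMap.smul_apply, LinearMap.sum_apply]
  have hP1 : ∀ v, P v ∈ W := by
    intro v
    rw [hPa]
    refine W.smul_mem _ (Submodule.sum_mem _ fun q _ => ?_)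
    rw [hf]
    exact hW _ _ (hp1 _)
  have hP2 : ∀ w ∈ W, P w = w := by
    intro w hw
    have h1 : ∀ q : Γ ⧸ H, f q.out w = w := by
      intro q
      rw [hf, hp2 _ (hW _ _ hw), ← LinearEquiv.mul_apply, ← map_mul, mul_inv_cancel, map_one]
      rfl
    rw [hPa, Finset.sum_congr rfl fun q _ => h1 q, Finset.sum_const, Finset.card_univ, ← Nat.cast_smul_eq_nsmul k,
      smul_smul, inv_mul_cancel₀ hcard, one_smul]
  have hP3 : ∀ g v, P (ρ g v) = ρ g (P v) := by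
    intro g v
    rw [hPa, hPa, map_smul, map_sum]
    congr 1
    have h1 : ∀ q : Γ ⧸ H, f q.out (ρ g v) = ρ g (f (g⁻¹ • q).out v) := by
      intro q
      have h2 : f (g⁻¹ • q).out = f (g⁻¹ * q.out) := by
        apply hfe
        rw [QuotientGroup.out_eq']
        conv_lhs => rw [← QuotientGroup.out_eq' q]
        rfl
      rw [h2, hf, hf]
      rw [map_mul, LinearEquiv.mul_apply, ← LinearEquiv.mul_apply (ρ g) (ρ g⁻¹), ← map_mul ρ g, mul_inv_cancel, map_one]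
      show _ = ρ q.out (p (ρ (g⁻¹ * q.out)⁻¹ v))
      rw [_root_.mul_inv_rev, inv_inv, map_mul, LinearEquiv.mul_apply]
    rw [Finset.sum_congr rfl fun q _ => h1 q]
    exact Fintype.sum_equiv (MulAction.toPerm g⁻¹) _ _ fun q => rfl
  refine ⟨LinearMap.ker P, fun g v hv => ?_, ?_⟩
  · rw [LinearMap.mem_ker] at hv ⊢
    rw [hP3, hv, map_zero]
  · refine IsCompl.of_eq ?_ ?_
    · rw [eq_bot_iff]
      rintro x ⟨hx1, hx2⟩
      rw [Submodule.mem_bot, ← hP2 x hx1]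
      exact hx2
    · rw [eq_top_iff]
      intro x _
      refine Submodule.mem_sup.2 ⟨P x, hP1 x, x - P x, ?_, by abel⟩
      rw [LinearMap.mem_ker, map_sub, hP2 _ (hP1 x), sub_self]

end maschke

section bn

variable {Γ : Type*} [Group Γ] {k : Type*} [Field k] [CharZero k] {V : Type*} [AddCommGroup V] [Module k V]
  [FiniteDimensional k V]

/-- the representation -/
def toRep (ρ : Γ →* (V ≃ₗ[k] V)) : Representation k Γ V :=
  (LinearEquiv.automorphismGroup.toLinearMapMonoidHom (R := k) (M := V)).comp ρ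

theorem toRep_apply (ρ : Γ →* (V ≃ₗ[k] V)) (g : Γ) (v : V) : toRep ρ g v = ρ g v := rfl

theorem ss_module {ρ : Γ →* (V ≃ₗ[k] V)} (h : SS ρ) :
    IsSemisimpleModule (MonoidAlgebra k Γ) (toRep ρ).asModule := by
  have h1 : ComplementedLattice (toRep ρ).invtSubmodule := by
    constructor
    intro W
    obtain ⟨W', hW', hc⟩ := h W.1 fun g w hw => (Representation.mem_invtSubmodule _).1 W.2 g hw
    refine ⟨⟨W', (Representation.mem_invtSubmodule _).2 fun g w hw => hW' g w hw⟩, ?_⟩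
    refine IsCompl.of_eq ?_ ?_
    · exact Subtype.ext hc.inf_eq_bot
    · exact Subtype.ext hc.sup_eq_top
  exact (isSemisimpleModule_iff _ _).2 ((Representation.mapSubmodule (toRep ρ)).complementedLattice_iff.1 h1)

/-- **The Brauer-Nesbitt theorem** -/
theorem bn {ρ ρ' : Γ →* (V ≃ₗ[k] V)} (h : SS ρ) (h' : SS ρ')
    (ht : ∀ g, LinearMap.trace k V (ρ g).toLinearMap = LinearMap.trace k V (ρ' g).toLinearMap) :
    ∃ A : V ≃ₗ[k] V, ∀ g v, A (ρ g v) = ρ' g (A v) := by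
  have := ss_module h
  have := ss_module h'
  have htr : ∀ (ρ : Γ →* (V ≃ₗ[k] V)) (a : MonoidAlgebra k Γ),
      Pool.Agent.H52.BN.tr k (toRep ρ).asModule a = LinearMap.trace k V ((toRep ρ).asAlgebraHom a) := by
    intro ρ a
    rw [Pool.Agent.H52.BN.tr, ← LinearMap.trace_conj' _ (toRep ρ).asModuleEquiv]
    rfl
  have htr2 : ∀ a : MonoidAlgebra k Γ, LinearMap.trace k V ((toRep ρ).asAlgebraHom a) =
      LinearMap.trace k V ((toRep ρ').asAlgebraHom a) := by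
    intro a
    induction a using MonoidAlgebra.induction_on with
    | of g =>
      rw [Representation.asAlgebraHom_of, Representation.asAlgebraHom_of]
      exact ht g
    | add x y hx hy => rw [map_add, map_add, map_add, map_add, hx, hy]
    | smul c x hx => rw [map_smul, map_smul, map_smul, map_smul, hx]
  obtain ⟨e⟩ := Pool.Agent.H52.BN.brauer_nesbitt (k := k) (A := MonoidAlgebra k Γ) _ (toRep ρ).asModule
    (toRep ρ').asModule rfl fun a => by
      rw [htr, htr]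
      exact htr2 a
  refine ⟨((toRep ρ).asModuleEquiv.symm.trans (e.restrictScalars k)).trans (toRep ρ').asModuleEquiv, fun g v => ?_⟩
  show (toRep ρ').asModuleEquiv (e ((toRep ρ).asModuleEquiv.symm (toRep ρ g v))) =
    ρ' g ((toRep ρ').asModuleEquiv (e ((toRep ρ).asModuleEquiv.symm v)))
  rw [Representation.asModuleEquiv_symm_map_rho, map_smul, Representation.asModuleEquiv_map_smul,
    Representation.asAlgebraHom_of]
  rfl

end bn

end Pool.Agent.H52.SSRep
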