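import Pool.Graph.R_pool_sql_team_seeded_64922ed1.X289.TF.LG
import Pool.Agent.H52.SSRep
import Pool.Agent.H52.Rigid

/-! Descent of homomorphisms to the automorphism group of a semisimple Lie algebra. -/

set_option autoImplicit false
set_option linter.unusedSectionVars false

namespace Pool.Agent.H52.Descent

open Module Pool.Agent.H52.SSRep Pool.Agent.H52.Rigid

section group

variable {Γ : Type*} [Group Γ] {Ω 𝔤 : Type*} [Field Ω] [LieRing 𝔤] [LieAlgebra Ω 𝔤]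

/-- `r` is multiplicative on `H` -/
def MulOn (H : Subgroup Γ) (r : Γ → (𝔤 ≃ₗ[Ω] 𝔤)) : Prop := ∀ x ∈ H, ∀ y ∈ H, r (x * y) = r x * r y

/-- stable subspaces have stable complements -/
def SSOn (H : Subgroup Γ) (r : Γ → (𝔤 ≃ₗ[Ω] 𝔤)) : Prop := ∀ W : Submodule Ω 𝔤, (∀ x ∈ H, ∀ w ∈ W, r x w ∈ W) →
  ∃ W' : Submodule Ω 𝔤, (∀ x ∈ H, ∀ w ∈ W', r x w ∈ W') ∧ IsCompl W W'

/-- the homomorphism -/
def hom {H : Subgroup Γ} {r : Γ → (𝔤 ≃ₗ[Ω] 𝔤)} (h : MulOn H r) : H →* (𝔤 ≃ₗ[Ω] 𝔤) :=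
  MonoidHom.mk' (fun x : H => r x) fun x y => h x x.2 y y.2

theorem hom_apply {H : Subgroup Γ} {r : Γ → (𝔤 ≃ₗ[Ω] 𝔤)} (h : MulOn H r) (x : H) : hom h x = r x := rfl

theorem map_one' {H : Subgroup Γ} {r : Γ → (𝔤 ≃ₗ[Ω] 𝔤)} (h : MulOn H r) : r 1 = 1 := map_one (hom h)

theorem map_inv' {H : Subgroup Γ} {r : Γ → (𝔤 ≃ₗ[Ω] 𝔤)} (h : MulOn H r) {x : Γ} (hx : x ∈ H) : r x⁻¹ = (r x)⁻¹ :=
  map_inv (hom h) ⟨x, hx⟩

theorem map_conj' {H : Subgroup Γ} {r : Γ → (𝔤 ≃ₗ[Ω] 𝔤)} (h : MulOn H r) {x u : Γ} (hx : x ∈ H) (hu : u ∈ H) :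
    r (x * u * x⁻¹) = r x * r u * (r x)⁻¹ := by
  rw [h _ (H.mul_mem hx hu) _ (H.inv_mem hx), h x hx u hu, map_inv' h hx]

theorem MulOn.mono {H H' : Subgroup Γ} (hle : H' ≤ H) {r : Γ → (𝔤 ≃ₗ[Ω] 𝔤)} (h : MulOn H r) : MulOn H' r :=
  fun x hx y hy => h x (hle hx) y (hle hy)

theorem SSOn.hom {H : Subgroup Γ} {r : Γ → (𝔤 ≃ₗ[Ω] 𝔤)} (hs : SSOn H r) (h : MulOn H r) : SS (hom h) := by
  intro W hW
  obtain ⟨W', h1, h2⟩ := hs W fun x hx w hw => hW ⟨x, hx⟩ w hw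
  exact ⟨W', fun x w hw => h1 x.1 x.2 w hw, h2⟩

theorem SSOn.clifford [FiniteDimensional Ω 𝔤] {H N : Subgroup Γ} (hN : N.Normal) (hle : N ≤ H)
    {r : Γ → (𝔤 ≃ₗ[Ω] 𝔤)} (hs : SSOn H r) (h : MulOn H r) : SSOn N r := by
  have : (N.subgroupOf H).Normal := inferInstance
  have h1 := Pool.Agent.H52.SSRep.clifford (N.subgroupOf H) (hs.hom h)
  intro W hW
  obtain ⟨W', h2, h3⟩ := h1 W fun x w hw => hW x.1.1 x.2 w hw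
  exact ⟨W', fun x hx w hw => h2 ⟨⟨x, hle hx⟩, hx⟩ w hw, h3⟩

theorem SSOn.conj {N : Subgroup Γ} (hN : N.Normal) {r : Γ → (𝔤 ≃ₗ[Ω] 𝔤)} (hs : SSOn N r) (g : Γ) :
    SSOn N fun x => r (g * x * g⁻¹) := by
  intro W hW
  obtain ⟨W', h1, h2⟩ := hs W fun x hx w hw => by
    have h3 : g⁻¹ * x * g ∈ N := by
      have := hN.conj_mem x hx g⁻¹
      rwa [inv_inv] at this
    have h4 : r (g * (g⁻¹ * x * g) * g⁻¹) w ∈ W := hW _ h3 w hw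
    have e : g * (g⁻¹ * x * g) * g⁻¹ = x := by group
    rwa [e] at h4
  exact ⟨W', fun x hx w hw => h1 _ (hN.conj_mem x hx g) w hw, h2⟩

theorem MulOn.conj {N : Subgroup Γ} (hN : N.Normal) {r : Γ → (𝔤 ≃ₗ[Ω] 𝔤)} (h : MulOn N r) (g : Γ) :
    MulOn N fun x => r (g * x * g⁻¹) := by
  intro x hx y hy
  have e : g * (x * y) * g⁻¹ = (g * x * g⁻¹) * (g * y * g⁻¹) := by group
  show r (g * (x * y) * g⁻¹) = r (g * x * g⁻¹) * r (g * y * g⁻¹)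
  rw [e]
  exact h _ (hN.conj_mem x hx g) _ (hN.conj_mem y hy g)

theorem MulOn.conj' {N : Subgroup Γ} {r : Γ → (𝔤 ≃ₗ[Ω] 𝔤)} (h : MulOn N r) (γ : 𝔤 ≃ₗ[Ω] 𝔤) :
    MulOn N fun x => γ * r x * γ⁻¹ := by
  intro x hx y hy
  show γ * r (x * y) * γ⁻¹ = γ * r x * γ⁻¹ * (γ * r y * γ⁻¹)
  rw [h x hx y hy]
  group

/-- every bilinear map which is equivariant for `N` is equivariant for the inner derivations -/
def ZarOn (N : Subgroup Γ) (r : Γ → (𝔤 ≃ₗ[Ω] 𝔤)) : Prop :=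
  ∀ β : 𝔤 →ₗ[Ω] 𝔤 →ₗ[Ω] 𝔤, (∀ x ∈ N, ∀ u v, r x (β u v) = β (r x u) (r x v)) →
    ∀ y u v : 𝔤, ⁅y, β u v⁆ = β ⁅y, u⁆ v + β u ⁅y, v⁆

theorem ZarOn.zar {N : Subgroup Γ} {r : Γ → (𝔤 ≃ₗ[Ω] 𝔤)} (h : ZarOn N r) : Zar fun x : N => r x :=
  fun β hβ => h β fun x hx => hβ ⟨x, hx⟩

theorem ZarOn.conj {N : Subgroup Γ} {r : Γ → (𝔤 ≃ₗ[Ω] 𝔤)} (h : ZarOn N r) {γ : 𝔤 ≃ₗ[Ω] 𝔤} (hγ : γ ∈ LieAut Ω 𝔤) :
    ZarOn N fun x => γ * r x * γ⁻¹ := by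
  intro β hβ y u v
  have hi : ∀ w, (γ⁻¹ : 𝔤 ≃ₗ[Ω] 𝔤) w = γ.symm w := fun w => rfl
  let β' : 𝔤 →ₗ[Ω] 𝔤 →ₗ[Ω] 𝔤 := LinearMap.mk₂ Ω (fun u v => γ.symm (β (γ u) (γ v)))
    (fun u u' v => by rw [map_add, map_add, LinearMap.add_apply, map_add])
    (fun c u v => by rw [map_smul, map_smul, LinearMap.smul_apply, map_smul])
    (fun u v v' => by rw [map_add, map_add, map_add]) (fun c u v => by rw [map_smul, map_smul, map_smul])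
  have hβ' : ∀ u v, β' u v = γ.symm (β (γ u) (γ v)) := fun u v => rfl
  have h1 := h β' (fun x hx u v => by
    have h2 := hβ x hx (γ u) (γ v)
    have h3 : ∀ w, (γ * r x * γ⁻¹ : 𝔤 ≃ₗ[Ω] 𝔤) w = γ (r x (γ.symm w)) := fun w => rfl
    simp only [h3, LinearEquiv.symm_apply_apply] at h2
    rw [hβ', hβ', ← h2, LinearEquiv.symm_apply_apply]) (γ.symm y) (γ.symm u) (γ.symm v)
  rw [hβ', hβ', hβ', hγ, hγ] at h1
  simp only [LinearEquiv.apply_symm_apply] at h1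
  have h2 := congrArg γ h1
  rw [hγ, map_add] at h2
  simpa only [LinearEquiv.apply_symm_apply] using h2

variable [FiniteDimensional Ω 𝔤] [LieAlgebra.IsKilling Ω 𝔤]

/-- extensions from a normal subgroup with large image are unique -/
theorem ext_unique {H N : Subgroup Γ} (hN : N.Normal) (hle : N ≤ H) {r r' : Γ → (𝔤 ≃ₗ[Ω] 𝔤)} (h : MulOn H r)
    (h' : MulOn H r') (ha : ∀ x ∈ H, r x ∈ LieAut Ω 𝔤) (ha' : ∀ x ∈ H, r' x ∈ LieAut Ω 𝔤) (hz : ZarOn N r)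
    (he : ∀ x ∈ N, r' x = r x) : ∀ x ∈ H, r' x = r x := by
  intro x hx
  have h1 : (r x)⁻¹ * r' x = 1 := by
    refine eq_one (s := fun u : N => r u) (fun u => ha _ (hle u.2)) hz.zar
      ((LieAut Ω 𝔤).mul_mem ((LieAut Ω 𝔤).inv_mem (ha x hx)) (ha' x hx)) fun u => ?_
    have h2 := map_conj' h hx (hle u.2)
    have h3 := map_conj' h' hx (hle u.2)
    rw [he _ (hN.conj_mem u u.2 x), h2, he u u.2] at h3
    show (r x)⁻¹ * r' x * r u = r u * ((r x)⁻¹ * r' x)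
    calc (r x)⁻¹ * r' x * r u = (r x)⁻¹ * (r' x * r u * (r' x)⁻¹) * r' x := by group
      _ = (r x)⁻¹ * (r x * r u * (r x)⁻¹) * r' x := by rw [← h3]
      _ = r u * ((r x)⁻¹ * r' x) := by group
  exact (inv_mul_eq_one.1 h1).symm

/-- equal traces imply conjugacy under automorphisms -/
theorem exists_conj [CharZero Ω] {N : Subgroup Γ} {r r' : Γ → (𝔤 ≃ₗ[Ω] 𝔤)} (h : MulOn N r) (h' : MulOn N r')
    (ha : ∀ x ∈ N, r x ∈ LieAut Ω 𝔤) (ha' : ∀ x ∈ N, r' x ∈ LieAut Ω 𝔤) (hs : SSOn N r) (hs' : SSOn N r')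
    (hz : ZarOn N r) (ht : ∀ x ∈ N, LinearMap.trace Ω 𝔤 (r x).toLinearMap = LinearMap.trace Ω 𝔤 (r' x).toLinearMap) :
    ∃ φ ∈ LieAut Ω 𝔤, ∀ x ∈ N, φ * r x * φ⁻¹ = r' x := by
  obtain ⟨A, hA⟩ := bn (hs.hom h) (hs'.hom h') fun x => ht x x.2
  obtain ⟨φ, h1, h2⟩ := exists_aut (s := fun x : N => r x) (s' := fun x : N => r' x) (fun x => ha x x.2)
    (fun x => ha' x x.2) hz.zar A fun x v => hA x v
  exact ⟨φ, h1, fun x hx => h2 ⟨x, hx⟩⟩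

/-- **Extension.** -/
theorem exists_ext [CharZero Ω] {H N : Subgroup Γ} (hN : N.Normal) (hle : N ≤ H) {r : Γ → (𝔤 ≃ₗ[Ω] 𝔤)}
    (h : MulOn H r) (ha : ∀ x ∈ H, r x ∈ LieAut Ω 𝔤) (hs : SSOn H r) (hz : ZarOn N r)
    (ht : ∀ g, ∀ x ∈ N, LinearMap.trace Ω 𝔤 (r x).toLinearMap =
      LinearMap.trace Ω 𝔤 (r (g * x * g⁻¹)).toLinearMap) :
    ∃ R : Γ → (𝔤 ≃ₗ[Ω] 𝔤), MulOn ⊤ R ∧ (∀ x, R x ∈ LieAut Ω 𝔤) ∧ (∀ x ∈ H, R x = r x) ∧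
      ∀ g, ∀ x ∈ N, R g * r x * (R g)⁻¹ = r (g * x * g⁻¹) := by
  have hsN := hs.clifford hN hle h
  have hex : ∀ g, ∃ φ ∈ LieAut Ω 𝔤, ∀ x ∈ N, φ * r x * φ⁻¹ = r (g * x * g⁻¹) := fun g =>
    exists_conj (h.mono hle) ((h.mono hle).conj hN g) (fun x hx => ha x (hle hx))
      (fun x hx => ha _ (hle (hN.conj_mem x hx g))) hsN (hsN.conj hN g) hz (ht g)
  have huniq : ∀ (g : Γ) (φ ψ : 𝔤 ≃ₗ[Ω] 𝔤), φ ∈ LieAut Ω 𝔤 → ψ ∈ LieAut Ω 𝔤 →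
      (∀ x ∈ N, φ * r x * φ⁻¹ = r (g * x * g⁻¹)) → (∀ x ∈ N, ψ * r x * ψ⁻¹ = r (g * x * g⁻¹)) → φ = ψ := by
    intro g φ ψ hφ hψ h1 h2
    have h3 : ψ⁻¹ * φ = 1 := by
      refine eq_one (s := fun u : N => r u) (fun u => ha _ (hle u.2)) hz.zar
        ((LieAut Ω 𝔤).mul_mem ((LieAut Ω 𝔤).inv_mem hψ) hφ) fun u => ?_
      have h4 := (h1 u u.2).trans (h2 u u.2).symm
      show ψ⁻¹ * φ * r u = r u * (ψ⁻¹ * φ)
      calc ψ⁻¹ * φ * r u = ψ⁻¹ * (φ * r u * φ⁻¹) * φ := by group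
        _ = ψ⁻¹ * (ψ * r u * ψ⁻¹) * φ := by rw [h4]
        _ = r u * (ψ⁻¹ * φ) := by group
    exact (inv_mul_eq_one.1 h3).symm
  choose R hR1 hR2 using hex
  refine ⟨R, fun g _ g' _ => ?_, hR1, fun x hx => ?_, hR2⟩
  · refine huniq (g * g') _ _ (hR1 _) ((LieAut Ω 𝔤).mul_mem (hR1 _) (hR1 _)) (hR2 _) fun x hx => ?_
    have e : g * g' * x * (g * g')⁻¹ = g * (g' * x * g'⁻¹) * g⁻¹ := by group
    rw [e, ← hR2 g _ (hN.conj_mem x hx g'), ← hR2 g' x hx]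
    group
  · exact huniq x _ _ (hR1 _) (ha x hx) (hR2 _) fun u hu => (map_conj' h hx (hle hu)).symm

end group

end Pool.Agent.H52.Descent
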